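import Mathlib

/-!
Shuffles, and the reduction of shuffle decompositions to two-colourings.
-/

set_option autoImplicit false

namespace Pool.Agent.H623R2.Shuf

variable {D : Type}

/-- `Sh u v w`: the word `w` is an interleaving of `u` and `v`. -/
inductive Sh : List D → List D → List D → Prop
  | nil : Sh [] [] []
  | left (a : D) {u v w : List D} : Sh u v w → Sh (a :: u) v (a :: w)
  | right (a : D) {u v w : List D} : Sh u v w → Sh u (a :: v) (a :: w)

namespace Sh

theorem symm {u v w : List D} (h : Sh u v w) : Sh v u w := by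
  induction h with
  | nil => exact .nil
  | left a _ ih => exact .right a ih
  | right a _ ih => exact .left a ih

theorem nil_right (u : List D) : Sh u [] u := by
  induction u with
  | nil => exact .nil
  | cons a u ih => exact .left a ih

theorem nil_left (u : List D) : Sh [] u u := (nil_right u).symm

theorem of_nil_right {u w : List D} (h : Sh u [] w) : w = u := by
  generalize hv : ([] : List D) = v at h
  induction h with
  | nil => rfl
  | left a _ ih => rw [ih hv]
  | right a _ _ => simp at hv

theorem of_nil_left {u w : List D} (h : Sh [] u w) : w = u := h.symm.of_nil_right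

theorem of_nil {u v : List D} (h : Sh u v []) : u = [] ∧ v = [] := by
  cases h
  exact ⟨rfl, rfl⟩

theorem append (u v : List D) : Sh u v (u ++ v) := by
  induction u with
  | nil => exact nil_left v
  | cons a u ih => exact .left a ih

theorem countP (p : D → Bool) {u v w : List D} (h : Sh u v w) :
    w.countP p = u.countP p + v.countP p := by
  induction h with
  | nil => rfl
  | left a _ ih => simp only [List.countP_cons, ih]; omega
  | right a _ ih => simp only [List.countP_cons, ih]; omega

theorem count [DecidableEq D] (a : D) {u v w : List D} (h : Sh u v w) :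
    w.count a = u.count a + v.count a := h.countP _

theorem length {u v w : List D} (h : Sh u v w) : w.length = u.length + v.length := by
  induction h with
  | nil => rfl
  | left a _ ih => simp only [List.length_cons, ih]; omega
  | right a _ ih => simp only [List.length_cons, ih]; omega

theorem filter (p : D → Bool) {u v w : List D} (h : Sh u v w) :
    Sh (u.filter p) (v.filter p) (w.filter p) := by
  induction h with
  | nil => exact .nil
  | left a _ ih =>
    by_cases ha : p a = true
    · rw [List.filter_cons_of_pos ha, List.filter_cons_of_pos ha]; exact .left a ih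
    · rw [List.filter_cons_of_neg ha, List.filter_cons_of_neg ha]; exact ih
  | right a _ ih =>
    by_cases ha : p a = true
    · rw [List.filter_cons_of_pos ha, List.filter_cons_of_pos ha]; exact .right a ih
    · rw [List.filter_cons_of_neg ha, List.filter_cons_of_neg ha]; exact ih

theorem append_append {u v w u' v' w' : List D} (h : Sh u v w) (h' : Sh u' v' w') :
    Sh (u ++ u') (v ++ v') (w ++ w') := by
  induction h with
  | nil => exact h'
  | left a _ ih => exact .left a ih
  | right a _ ih => exact .right a ih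

theorem mem {u v w : List D} (h : Sh u v w) (a : D) : a ∈ w ↔ a ∈ u ∨ a ∈ v := by
  induction h with
  | nil => simp
  | left b _ ih => simp only [List.mem_cons, ih]; tauto
  | right b _ ih => simp only [List.mem_cons, ih]; tauto

theorem insert (p q : List D) (a : D) : Sh (p ++ q) [a] (p ++ a :: q) := by
  induction p with
  | nil => exact .right a (nil_right q)
  | cons b p ih => exact .left b ih

end Sh

/-- Masks describe interleavings. -/
theorem sh_iff_mask (u v w : List D) :
    (∃ m : List Bool, m.length = w.length ∧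
      ((w.zip m).filter (fun x => x.2)).map Prod.fst = u ∧
      ((w.zip m).filter (fun x => !x.2)).map Prod.fst = v) ↔ Sh u v w := by
  constructor
  · rintro ⟨m, hm, hu, hv⟩
    induction w generalizing u v m with
    | nil =>
      simp only [List.zip_nil_left, List.filter_nil, List.map_nil] at hu hv
      subst hu hv
      exact .nil
    | cons a w ih =>
      match m, hm with
      | true :: m, hm =>
        simp only [List.zip_cons_cons, List.filter_cons_of_pos, List.map_cons,
          Bool.not_true, Bool.false_eq_true, not_false_eq_true,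
          List.filter_cons_of_neg] at hu hv
        subst hu
        exact .left a (ih _ _ m (by simpa using hm) rfl hv)
      | false :: m, hm =>
        simp only [List.zip_cons_cons, List.filter_cons_of_pos, List.map_cons,
          Bool.not_false, Bool.false_eq_true, not_false_eq_true,
          List.filter_cons_of_neg] at hu hv
        subst hv
        exact .right a (ih _ _ m (by simpa using hm) hu rfl)
  · intro h
    induction h with
    | nil => exact ⟨[], rfl, rfl, rfl⟩
    | left a _ ih =>
      obtain ⟨m, hm, h1, h2⟩ := ih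
      exact ⟨true :: m, by simp [hm], by simp [h1], by simp [h2]⟩
    | right a _ ih =>
      obtain ⟨m, hm, h1, h2⟩ := ih
      exact ⟨false :: m, by simp [hm], by simp [h1], by simp [h2]⟩

variable [DecidableEq D]

/-- The language built from a set `N` of forbidden words. -/
def InR (m s t : D) (N : Set (List D)) (w : List D) : Prop :=
  w = [] ∨ (w.count m = 1 ∧ w ≠ [m, t, s] ∧ ∀ z ∈ N, w ≠ m :: z) ∨
    (w.count m = 2 ∧ ∀ z ∈ N, w ≠ m :: m :: z)

/-- Non-trivial shuffle decompositions. -/
def Decomp (P : List D → Prop) : Prop :=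
  ∃ L₁ L₂ : Set (List D), L₁ ≠ {[]} ∧ L₂ ≠ {[]} ∧ ∀ w, P w ↔ ∃ u ∈ L₁, ∃ v ∈ L₂, Sh u v w

theorem decomp_of_colouring {m s t : D} (hms : s ≠ m) (hmt : t ≠ m) {N A B : Set (List D)}
    (hA0 : [] ∈ A) (hB0 : [] ∈ B) (hsA : [s] ∈ A) (htB : [t] ∈ B)
    (hA : ∀ x ∈ A, x.count m = 0 ∧ x ∉ N ∧ x ≠ [t, s])
    (hB : ∀ x ∈ B, x.count m = 0 ∧ x ∉ N ∧ x ≠ [t, s])
    (hAB : ∀ x, x.count m = 0 → x ∉ N → x ≠ [t, s] → x ∈ A ∨ x ∈ B)
    (hN : ∀ a ∈ A, ∀ b ∈ B, ∀ z, Sh a b z → z ∉ N) :
    Decomp (InR m s t N) := by
  -- the two factors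
  let F : Set (List D) → Set (List D) := fun A =>
    {w | w = [] ∨ (w.count m = 1 ∧ ∀ z, w = m :: z → z ∈ A)}
  have hbare : ∀ A : Set (List D), [] ∈ A → [m] ∈ F A := by
    intro A hA
    refine Or.inr ⟨by simp, ?_⟩
    rintro z hz
    simp only [List.cons.injEq, true_and] at hz
    rwa [← hz]
  have hother : ∀ (A : Set (List D)) (a : D) (w : List D), a ≠ m → (a :: w).count m = 1 →
      a :: w ∈ F A := by
    intro A a w ha hw
    refine Or.inr ⟨hw, ?_⟩
    intro z hz
    simp only [List.cons.injEq] at hz
    exact absurd hz.1 ha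
  have hpre : ∀ (A : Set (List D)) (z : List D), z ∈ A → z.count m = 0 → m :: z ∈ F A := by
    intro A z hz hc
    refine Or.inr ⟨by simp [hc], ?_⟩
    rintro z' hz'
    simp only [List.cons.injEq, true_and] at hz'
    rwa [← hz']
  have hFR : ∀ A : Set (List D), (∀ x ∈ A, x.count m = 0 ∧ x ∉ N ∧ x ≠ [t, s]) →
      ∀ w ∈ F A, InR m s t N w := by
    rintro A hA w (h | ⟨h1, h2⟩)
    · exact Or.inl h
    · refine Or.inr (Or.inl ⟨h1, ?_, ?_⟩)
      · intro h
        exact (hA _ (h2 _ h)).2.2 rfl
      · intro z hz h
        exact (hA _ (h2 _ h)).2.1 hz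
  refine ⟨F A, F B, ?_, ?_, ?_⟩
  · intro h
    have := hbare A hA0
    rw [h] at this
    simp at this
  · intro h
    have := hbare B hB0
    rw [h] at this
    simp at this
  intro w
  constructor
  · rintro (h | ⟨h1, h2, h3⟩ | ⟨h1, h2⟩)
    · subst h
      exact ⟨[], Or.inl rfl, [], Or.inl rfl, .nil⟩
    · rcases w with _ | ⟨a, w⟩
      · simp at h1
      by_cases ha : a = m
      · subst ha
        have hc : w.count a = 0 := by simpa using h1
        have hwN : w ∉ N := fun h => h3 _ h rfl
        have hwt : w ≠ [t, s] := fun h => h2 (by rw [h])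
        rcases hAB w hc hwN hwt with h | h
        · exact ⟨_, hpre A w h hc, [], Or.inl rfl, Sh.nil_right _⟩
        · exact ⟨[], Or.inl rfl, _, hpre B w h hc, Sh.nil_left _⟩
      · exact ⟨_, hother A a w ha h1, [], Or.inl rfl, Sh.nil_right _⟩
    · rcases w with _ | ⟨a, w⟩
      · simp at h1
      by_cases ha : a = m
      · subst ha
        have hc : w.count a = 1 := by simpa using h1
        rcases w with _ | ⟨b, w⟩
        · simp at hc
        by_cases hb : b = a
        · subst hb
          have hc' : w.count b = 0 := by simpa using hc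
          have hwN : w ∉ N := fun h => h2 _ h rfl
          by_cases hwt : w = [t, s]
          · subst hwt
            exact ⟨[b, s], hpre A [s] hsA (by simp [hms]), [b, t],
              hpre B [t] htB (by simp [hmt]), .left b (.right b (.right t (.left s .nil)))⟩
          · rcases hAB w hc' hwN hwt with h | h
            · exact ⟨_, hpre A w h hc', [b], hbare B hB0, .right b (Sh.nil_right _)⟩
            · exact ⟨[b], hbare A hA0, _, hpre B w h hc', .left b (Sh.nil_left _)⟩
        · exact ⟨_, hother A b w hb hc, [a], hbare B hB0, .right a (Sh.nil_right _)⟩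
      · have hc : w.count m = 2 := by
          rw [List.count_cons_of_ne (fun h => ha h)] at h1
          exact h1
        have hmem : m ∈ w := List.count_pos_iff.1 (by omega)
        obtain ⟨p, q, rfl⟩ := List.append_of_mem hmem
        refine ⟨a :: (p ++ q), hother A a _ ha ?_, [m], hbare B hB0, .left a (Sh.insert p q m)⟩
        rw [List.count_cons_of_ne (fun h => ha h)]
        simp only [List.count_append, List.count_cons_self] at hc ⊢
        omega
  · rintro ⟨u, hu, v, hv, h⟩
    have hu' := hu
    have hv' := hv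
    rcases hu with rfl | ⟨hu1, hu2⟩
    · rw [h.of_nil_left]
      exact hFR B hB v hv
    rcases hv with rfl | ⟨hv1, hv2⟩
    · rw [h.of_nil_right]
      exact hFR A hA u hu'
    refine Or.inr (Or.inr ⟨by rw [h.count, hu1, hv1], ?_⟩)
    rintro z hz rfl
    cases h with
    | left _ h =>
      cases h with
      | left _ h => simp at hu1
      | right _ h => exact hN _ (hu2 _ rfl) _ (hv2 _ rfl) z h hz
    | right _ h =>
      cases h with
      | left _ h => exact hN _ (hu2 _ rfl) _ (hv2 _ rfl) z h hz
      | right _ h => simp at hv1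

theorem colouring_of_decomp {m s t : D} (hms : s ≠ m) (hmt : t ≠ m) {N : Set (List D)}
    (hNts : [t, s] ∉ N)
    (h : Decomp (InR m s t N)) :
    ∃ A B : Set (List D), [s] ∈ A ∧ [t] ∈ B ∧
      (∀ x, x.count m = 0 → x ∉ N → x ≠ [t, s] → x ∈ A ∨ x ∈ B) ∧
      (∀ a ∈ A, ∀ b ∈ B, ∀ z, Sh a b z → z ∉ N) := by
  obtain ⟨L₁, L₂, h1, h2, h⟩ := h
  have hR2 : ∀ w, InR m s t N w → w.count m ≤ 2 := by
    rintro w (h | ⟨h, -⟩ | ⟨h, -⟩)
    · simp [h]
    · omega
    · omega
  have hR0 : ∀ w, InR m s t N w → w.count m = 0 → w = [] := by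
    rintro w (h | ⟨h, -⟩ | ⟨h, -⟩) h0
    · exact h
    · omega
    · omega
  obtain ⟨u, hu, v, hv, huv⟩ := (h []).1 (Or.inl rfl)
  obtain ⟨rfl, rfl⟩ := huv.of_nil
  have hL1 : ∀ u ∈ L₁, InR m s t N u := fun u hu' => (h u).2 ⟨u, hu', [], hv, Sh.nil_right u⟩
  have hL2 : ∀ u ∈ L₂, InR m s t N u := fun u hu' => (h u).2 ⟨[], hu, u, hu', Sh.nil_left u⟩
  obtain ⟨u0, hu0, hu0'⟩ : ∃ u ∈ L₁, u ≠ [] := by
    by_contra hc
    push Not at hc
    apply h1
    ext x
    exact ⟨fun hx => hc x hx, fun hx => by rw [Set.mem_singleton_iff.1 hx]; exact hu⟩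
  obtain ⟨v0, hv0, hv0'⟩ : ∃ u ∈ L₂, u ≠ [] := by
    by_contra hc
    push Not at hc
    apply h2
    ext x
    exact ⟨fun hx => hc x hx, fun hx => by rw [Set.mem_singleton_iff.1 hx]; exact hv⟩
  have hu0c : 1 ≤ u0.count m := by
    by_contra hc
    exact hu0' (hR0 _ (hL1 _ hu0) (by omega))
  have hv0c : 1 ≤ v0.count m := by
    by_contra hc
    exact hv0' (hR0 _ (hL2 _ hv0) (by omega))
  have hc1 : ∀ u ∈ L₁, u.count m ≤ 1 := by
    intro u hu
    have := hR2 _ ((h (u ++ v0)).2 ⟨u, hu, v0, hv0, Sh.append u v0⟩)
    rw [List.count_append] at this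
    omega
  have hc2 : ∀ u ∈ L₂, u.count m ≤ 1 := by
    intro u hu
    have := hR2 _ ((h (u0 ++ u)).2 ⟨u0, hu0, u, hu, Sh.append u0 u⟩)
    rw [List.count_append] at this
    omega
  have hcov : ∀ w, InR m s t N w → w.count m = 1 → w ∈ L₁ ∨ w ∈ L₂ := by
    intro w hw hc
    obtain ⟨a, ha, b, hb, hab⟩ := (h w).1 hw
    have := hab.count m
    have h3 := hc1 a ha
    have h4 := hc2 b hb
    have : a.count m = 0 ∨ b.count m = 0 := by omega
    rcases this with h0 | h0
    · have := hR0 a (hL1 a ha) h0
      subst this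
      rw [hab.of_nil_left]
      exact Or.inr hb
    · have := hR0 b (hL2 b hb) h0
      subst this
      rw [hab.of_nil_right]
      exact Or.inl ha
  have key : ∀ L₁ L₂ : Set (List D), (∀ w, InR m s t N w ↔ ∃ u ∈ L₁, ∃ v ∈ L₂, Sh u v w) →
      (∀ w, InR m s t N w → w.count m = 1 → w ∈ L₁ ∨ w ∈ L₂) → [m, s] ∈ L₁ → [m, t] ∈ L₂ →
      ∃ A B : Set (List D), [s] ∈ A ∧ [t] ∈ B ∧
      (∀ x, x.count m = 0 → x ∉ N → x ≠ [t, s] → x ∈ A ∨ x ∈ B) ∧
      (∀ a ∈ A, ∀ b ∈ B, ∀ z, Sh a b z → z ∉ N) := by
    intro L₁ L₂ h hcov hs ht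
    refine ⟨{x | m :: x ∈ L₁}, {x | m :: x ∈ L₂}, hs, ht, ?_, ?_⟩
    · intro x hx hxN hxt
      refine hcov (m :: x) (Or.inr (Or.inl ⟨by simp [hx], ?_, ?_⟩)) (by simp [hx])
      · intro he
        exact hxt (by simpa using he)
      · intro z hz he
        simp only [List.cons.injEq, true_and] at he
        exact hxN (he ▸ hz)
    · intro a ha b hb z hz hzN
      have := (h (m :: m :: z)).2 ⟨_, ha, _, hb, .left m (.right m hz)⟩
      rcases this with h | ⟨h, -⟩ | ⟨-, h⟩
      · simp at h
      · simp at h
      · exact h z hzN rfl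
  -- the word `m m t s`
  have hw : InR m s t N [m, m, t, s] := by
    refine Or.inr (Or.inr ⟨by simp [hms, hmt], ?_⟩)
    intro z hz he
    simp only [List.cons.injEq, true_and] at he
    exact hNts (he ▸ hz)
  have hnot : ¬ InR m s t N [m, t, s] := by
    rintro (h | ⟨-, h, -⟩ | ⟨h, -⟩)
    · simp at h
    · exact h rfl
    · simp [hms, hmt] at h
  obtain ⟨a, ha, b, hb, hab⟩ := (h _).1 hw
  have hsplit : ([m, s] ∈ L₁ ∧ [m, t] ∈ L₂) ∨ ([m, s] ∈ L₂ ∧ [m, t] ∈ L₁) := by
    have hca := hc1 a ha
    have hcb := hc2 b hb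
    have hna := hL1 a ha
    have hnb := hL2 b hb
    cases hab with
    | left _ hab =>
      cases hab with
      | left _ hab => simp at hca
      | right _ hab =>
        cases hab with
        | left _ hab =>
          cases hab with
          | left _ hab =>
            obtain ⟨rfl, rfl⟩ := hab.of_nil
            exact absurd hna hnot
          | right _ hab =>
            obtain ⟨rfl, rfl⟩ := hab.of_nil
            exact Or.inr ⟨hb, ha⟩
        | right _ hab =>
          cases hab with
          | left _ hab =>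
            obtain ⟨rfl, rfl⟩ := hab.of_nil
            exact Or.inl ⟨ha, hb⟩
          | right _ hab =>
            obtain ⟨rfl, rfl⟩ := hab.of_nil
            exact absurd hnb hnot
    | right _ hab =>
      cases hab with
      | left _ hab =>
        cases hab with
        | left _ hab =>
          cases hab with
          | left _ hab =>
            obtain ⟨rfl, rfl⟩ := hab.of_nil
            exact absurd hna hnot
          | right _ hab =>
            obtain ⟨rfl, rfl⟩ := hab.of_nil
            exact Or.inr ⟨hb, ha⟩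
        | right _ hab =>
          cases hab with
          | left _ hab =>
            obtain ⟨rfl, rfl⟩ := hab.of_nil
            exact Or.inl ⟨ha, hb⟩
          | right _ hab =>
            obtain ⟨rfl, rfl⟩ := hab.of_nil
            exact absurd hnb hnot
      | right _ hab => simp at hcb
  rcases hsplit with ⟨hs, ht⟩ | ⟨hs, ht⟩
  · exact key L₁ L₂ h hcov hs ht
  · refine key L₂ L₁ ?_ (fun w h1 h2 => (hcov w h1 h2).symm) hs ht
    intro w
    rw [h]
    constructor
    · rintro ⟨u, hu, v, hv, huv⟩
      exact ⟨v, hv, u, hu, huv.symm⟩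
    · rintro ⟨u, hu, v, hv, huv⟩
      exact ⟨v, hv, u, hu, huv.symm⟩

end Pool.Agent.H623R2.Shuf
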