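import Mathlib
import Pool.Agent.H623R2.Shuf.Abs
import Pool.Agent.Helper522.Kos.Queue

/-!
The forbidden words encoding a queue system.
-/

set_option autoImplicit false

namespace Pool.Agent.H623R2.Shuf

open Relation Pool.Agent.Helper522.Kos.Queue

/-- The letters. -/
inductive Lt (S : Type)
  | mk
  | s
  | t
  | hash (b : Bool)
  | c (b : Bool) (a : S)
  deriving DecidableEq

variable {S : Type}

/-- Level letters. -/
def Lt.isLev : Lt S → Bool
  | .mk => false
  | .s => true
  | .t => true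
  | .hash _ => true
  | .c _ _ => false

/-- Letters of the copy `b`. -/
def Lt.isCopy (b : Bool) : Lt S → Bool
  | .mk => false
  | .s => false
  | .t => false
  | .hash b' => b' == b
  | .c b' _ => b' == b

/-- The configuration `l` in the copy `b`. -/
def cfg (b : Bool) (l : List S) : List (Lt S) := .hash b :: l.map (.c b)

/-- Level one words which are allowed. -/
def InC (x : List (Lt S)) : Prop := x = [.s] ∨ x = [.t] ∨ ∃ b l, x = cfg b l

/-- The pairs `(c b a)(c (!b) a)`. -/
def pairs (b : Bool) (l : List S) : List (Lt S) := l.flatMap fun a => [.c b a, .c (!b) a]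

/-- The fixed bad words. -/
def BadF (Pr : S → S → List S) (κ : S) (w : List (Lt S)) : Prop :=
  (∃ b, w = [.t, .hash b, .c b κ]) ∨
  ∃ b x y l, w = [.hash b, .hash (!b), .c b x, .c b y] ++ pairs b l ++ (Pr x y).map (.c (!b))

/-- The fixed part of the forbidden words. -/
def NF [DecidableEq S] (Pr : S → S → List S) (κ : S) (w : List (Lt S)) : Prop :=
  w.count .mk = 0 ∧ ((w ≠ [] ∧ w.countP Lt.isLev = 0) ∨ (w.countP Lt.isLev = 1 ∧ ¬ InC w) ∨
    BadF Pr κ w)

/-- The forbidden words. -/
def NN [DecidableEq S] (Pr : S → S → List S) (κ : S) (u : List S) : Set (List (Lt S)) :=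
  {w | NF Pr κ w ∨ w = .s :: cfg false u}

theorem countP_map_c (p : Lt S → Bool) (b : Bool) (l : List S) (h : ∀ a, p (.c b a) = false) :
    (l.map (Lt.c b)).countP p = 0 := by
  rw [List.countP_eq_zero]
  intro x hx
  obtain ⟨a, -, rfl⟩ := List.mem_map.1 hx
  simp [h]

theorem countP_pairs (p : Lt S → Bool) (b : Bool) (l : List S)
    (h : ∀ b a, p (.c b a) = false) : (pairs b l).countP p = 0 := by
  rw [List.countP_eq_zero]
  intro x hx
  simp only [pairs, List.mem_flatMap] at hx
  obtain ⟨a, -, hx⟩ := hx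
  simp only [List.mem_cons, List.not_mem_nil, or_false] at hx
  rcases hx with rfl | rfl <;> simp [h]

theorem filter_map_c_same (b : Bool) (l : List S) :
    (l.map (Lt.c b)).filter (Lt.isCopy b) = l.map (Lt.c b) := by
  rw [List.filter_eq_self]
  intro x hx
  obtain ⟨a, -, rfl⟩ := List.mem_map.1 hx
  simp [Lt.isCopy]

theorem filter_map_c_ne (b b' : Bool) (hb : b' ≠ b) (l : List S) :
    (l.map (Lt.c b')).filter (Lt.isCopy b) = [] := by
  rw [List.filter_eq_nil_iff]
  intro x hx
  obtain ⟨a, -, rfl⟩ := List.mem_map.1 hx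
  simp [Lt.isCopy, hb]

theorem filter_pairs (b b' : Bool) (l : List S) :
    (pairs b l).filter (Lt.isCopy b') = l.map (Lt.c b') := by
  induction l with
  | nil => rfl
  | cons a l ih =>
    have : pairs b (a :: l) = [.c b a, .c (!b) a] ++ pairs b l := rfl
    rw [this, List.filter_append, ih]
    cases b <;> cases b' <;> simp [Lt.isCopy]

theorem cfg_inj {b b' : Bool} {l l' : List S} (h : cfg b l = cfg b' l') : b = b' ∧ l = l' := by
  unfold cfg at h
  simp only [List.cons.injEq, Lt.hash.injEq] at h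
  obtain ⟨rfl, h⟩ := h
  exact ⟨rfl, List.map_injective_iff.2 (fun x y hxy => by simpa using hxy) h⟩

theorem filter_cfg_same (b : Bool) (l : List S) : (cfg b l).filter (Lt.isCopy b) = cfg b l := by
  unfold cfg
  rw [List.filter_cons_of_pos (by simp [Lt.isCopy]), filter_map_c_same]

theorem filter_cfg_ne (b b' : Bool) (hb : b' ≠ b) (l : List S) :
    (cfg b' l).filter (Lt.isCopy b) = [] := by
  unfold cfg
  rw [List.filter_cons_of_neg (by simp [Lt.isCopy, hb]), filter_map_c_ne _ _ hb]

/-- The interleaving of a configuration and its successor. -/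
theorem sh_step (b : Bool) (x y : S) (l P : List S) :
    Sh (cfg b (x :: y :: l)) (cfg (!b) (l ++ P))
      ([.hash b, .hash (!b), .c b x, .c b y] ++ pairs b l ++ P.map (.c (!b))) := by
  refine .left _ (.right _ (.left _ (.left _ ?_)))
  rw [List.map_append]
  have h1 : Sh (l.map (Lt.c b)) (l.map (Lt.c (!b))) (pairs b l) := by
    induction l with
    | nil => exact .nil
    | cons a l ih => exact .left _ (.right _ ih)
  have := h1.append_append (Sh.nil_left (P.map (Lt.c (!b))))
  simpa using this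

theorem bool_eq_not : ∀ a b : Bool, a ≠ b → a = !b := by decide

theorem bool_eq : ∀ a b c : Bool, a ≠ b → a ≠ c → b = c := by decide

theorem qreach_step_back {Pr : S → S → List S} {κ : S} {l l' : List S}
    (h : QStep Pr l l') (h' : QReach Pr l [κ]) : QReach Pr l' [κ] := by
  rcases ReflTransGen.cases_head h' with rfl | ⟨w, hw, hw2⟩
  · exact absurd h no_qstep_singleton
  · rwa [qstep_det h hw]

theorem isLev_cfg (b : Bool) (l : List S) : (cfg b l).countP Lt.isLev = 1 := by
  unfold cfg
  rw [List.countP_cons_of_pos (by rfl), countP_map_c _ _ _ (fun _ => rfl)]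

theorem isLev_of_InC {x : List (Lt S)} (h : InC x) : x.countP Lt.isLev = 1 := by
  rcases h with rfl | rfl | ⟨b, l, rfl⟩
  · rfl
  · rfl
  · exact isLev_cfg b l

theorem isLev_of_BadF {Pr : S → S → List S} {κ : S} {x : List (Lt S)} (h : BadF Pr κ x) :
    x.countP Lt.isLev = 2 := by
  rcases h with ⟨b, rfl⟩ | ⟨b, x, y, l, rfl⟩
  · rfl
  · rw [List.countP_append, List.countP_append, countP_pairs _ _ _ (fun _ _ => rfl),
      countP_map_c _ _ _ (fun _ => rfl)]
    rfl

variable [DecidableEq S]

theorem count_mk_cfg (b : Bool) (l : List S) : (cfg b l).count .mk = 0 := by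
  unfold cfg
  rw [List.count_cons_of_ne (by simp)]
  exact countP_map_c _ _ _ (fun _ => rfl)

theorem cfg_not_mem_NN {Pr : S → S → List S} {κ : S} {u : List S} (b : Bool) (l : List S) :
    cfg b l ∉ NN Pr κ u := by
  rintro (⟨-, ⟨-, h⟩ | ⟨-, h⟩ | h⟩ | h)
  · rw [isLev_cfg] at h; simp at h
  · exact h (Or.inr (Or.inr ⟨b, l, rfl⟩))
  · have := isLev_of_BadF h
    rw [isLev_cfg] at this
    simp at this
  · simp [cfg] at h

theorem s_not_mem_NN {Pr : S → S → List S} {κ : S} {u : List S} :
    [Lt.s] ∉ NN Pr κ u := by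
  rintro (⟨-, ⟨-, h⟩ | ⟨-, h⟩ | h⟩ | h)
  · simp [Lt.isLev] at h
  · exact h (Or.inl rfl)
  · have := isLev_of_BadF h
    simp [Lt.isLev] at this
  · simp [cfg] at h

theorem t_not_mem_NN {Pr : S → S → List S} {κ : S} {u : List S} :
    [Lt.t] ∉ NN Pr κ u := by
  rintro (⟨-, ⟨-, h⟩ | ⟨-, h⟩ | h⟩ | h)
  · simp [Lt.isLev] at h
  · exact h (Or.inr (Or.inl rfl))
  · have := isLev_of_BadF h
    simp [Lt.isLev] at this
  · simp [cfg] at h

theorem nil_not_mem_NN {Pr : S → S → List S} {κ : S} {u : List S} :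
    [] ∉ NN Pr κ u := by
  rintro (⟨-, ⟨h, -⟩ | ⟨h, -⟩ | h⟩ | h)
  · simp at h
  · simp at h
  · have := isLev_of_BadF h
    simp at this
  · simp [cfg] at h

theorem ts_not_mem_NN {Pr : S → S → List S} {κ : S} {u : List S} :
    [Lt.t, Lt.s] ∉ NN Pr κ u := by
  have h2 : List.countP Lt.isLev ([Lt.t, Lt.s] : List (Lt S)) = 2 := rfl
  rintro (⟨-, ⟨-, h⟩ | ⟨h, -⟩ | h⟩ | h)
  · omega
  · omega
  · rcases h with ⟨b, h⟩ | ⟨b, x, y, l, h⟩
    · simp at h
    · simp at h
  · simp [cfg] at h

theorem InC_of_lev {Pr : S → S → List S} {κ : S} {u : List S} {x : List (Lt S)}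
    (h0 : x.count .mk = 0) (h : x ∉ NN Pr κ u) (h1 : x.countP Lt.isLev = 1) : InC x := by
  by_contra hc
  exact h (Or.inl ⟨h0, Or.inr (Or.inl ⟨h1, hc⟩)⟩)

/-- If the queue system does not reach `[κ]`, then there is a decomposition. -/
theorem decomp_of_not_reach {Pr : S → S → List S} {κ : S} {u : List S}
    (h : ¬ QReach Pr u [κ]) : Decomp (InR .mk .s .t (NN Pr κ u)) := by
  let A0 : Set (List (Lt S)) := {x | x = [.s] ∨ ∃ b l, x = cfg b l ∧ ¬ QReach Pr l [κ]}
  let B0 : Set (List (Lt S)) := {x | x = [.t] ∨ ∃ b l, x = cfg b l ∧ QReach Pr l [κ]}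
  let G : Set (List (Lt S)) := {x | x.count .mk = 0 ∧ x ∉ NN Pr κ u ∧ x ≠ [.t, .s]}
  have hdisj : ∀ x, x ∈ A0 → x ∈ B0 → False := by
    rintro x (rfl | ⟨b, l, rfl, h1⟩) (h2 | ⟨b', l', h2, h3⟩)
    · simp at h2
    · simp [cfg] at h2
    · simp [cfg] at h2
    · obtain ⟨-, rfl⟩ := cfg_inj h2
      exact h1 h3
  have hlev : ∀ x ∈ G, x ≠ [] → 1 ≤ x.countP Lt.isLev := by
    intro x hx hne
    by_contra hc
    exact hx.2.1 (Or.inl ⟨hx.1, Or.inl ⟨hne, by omega⟩⟩)
  have hGC : ∀ x ∈ G, x.countP Lt.isLev = 1 → InC x := fun x hx h1 => InC_of_lev hx.1 hx.2.1 h1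
  have hCA : ∀ x, InC x → x ∉ B0 → x ∈ A0 := by
    rintro x (rfl | rfl | ⟨b, l, rfl⟩) hx
    · exact Or.inl rfl
    · exact absurd (Or.inl rfl) hx
    · by_cases hl : QReach Pr l [κ]
      · exact absurd (Or.inr ⟨b, l, rfl, hl⟩) hx
      · exact Or.inr ⟨b, l, rfl, hl⟩
  have hCB : ∀ x, InC x → x ∉ A0 → x ∈ B0 := by
    rintro x (rfl | rfl | ⟨b, l, rfl⟩) hx
    · exact absurd (Or.inl rfl) hx
    · exact Or.inl rfl
    · by_cases hl : QReach Pr l [κ]
      · exact Or.inr ⟨b, l, rfl, hl⟩
      · exact absurd (Or.inr ⟨b, l, rfl, hl⟩) hx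
  refine decomp_of_colouring (A := {x | x ∈ G ∧ x ∉ B0}) (B := {x | x ∈ G ∧ x ∉ A0})
    (by simp) (by simp) ?_ ?_ ?_ ?_ (fun x hx => hx.1) (fun x hx => hx.1) ?_ ?_
  · refine ⟨⟨by simp, nil_not_mem_NN, by simp⟩, ?_⟩
    rintro (h | ⟨b, l, h, -⟩) <;> simp [cfg] at h
  · refine ⟨⟨by simp, nil_not_mem_NN, by simp⟩, ?_⟩
    rintro (h | ⟨b, l, h, -⟩) <;> simp [cfg] at h
  · refine ⟨⟨by simp, s_not_mem_NN, by simp⟩, ?_⟩
    rintro (h | ⟨b, l, h, -⟩) <;> simp [cfg] at h
  · refine ⟨⟨by simp, t_not_mem_NN, by simp⟩, ?_⟩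
    rintro (h | ⟨b, l, h, -⟩) <;> simp [cfg] at h
  · intro x h0 h1 h2
    by_cases hx : x ∈ B0
    · exact Or.inr ⟨⟨h0, h1, h2⟩, fun hA => hdisj x hA hx⟩
    · exact Or.inl ⟨⟨h0, h1, h2⟩, hx⟩
  · rintro a ⟨haG, haB⟩ b ⟨hbG, hbA⟩ z hz hzN
    by_cases ha0 : a = []
    · subst ha0
      rw [hz.of_nil_left] at hzN
      exact hbG.2.1 hzN
    by_cases hb0 : b = []
    · subst hb0
      rw [hz.of_nil_right] at hzN
      exact haG.2.1 hzN
    have hla := hlev a haG ha0
    have hlb := hlev b hbG hb0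
    have hcz := hz.countP Lt.isLev
    -- `z` is a bad word of level two
    have hbad : BadF Pr κ z ∨ z = .s :: cfg false u := by
      rcases hzN with ⟨-, ⟨-, h⟩ | ⟨h, -⟩ | h⟩ | h
      · omega
      · omega
      · exact Or.inl h
      · exact Or.inr h
    have hz2 : z.countP Lt.isLev = 2 := by
      rcases hbad with h | h
      · exact isLev_of_BadF h
      · rw [h, List.countP_cons_of_pos (by rfl), isLev_cfg]
    have haA := hCA a (hGC a haG (by omega)) haB
    have hbB := hCB b (hGC b hbG (by omega)) hbA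
    rcases hbad with (⟨b0, rfl⟩ | ⟨b0, x, y, l, rfl⟩) | rfl
    · -- `t` against `[κ]`
      have hbt : b = [.t] := by
        rcases hbB with h | ⟨b1, l1, h, -⟩
        · exact h
        · exfalso
          have h1 : Lt.t ∈ a ∨ Lt.t ∈ b := (hz.mem .t).1 (by simp)
          rcases h1 with h1 | h1
          · rcases haA with h2 | ⟨b2, l2, h2, -⟩
            · rw [h2] at h1; simp at h1
            · rw [h2] at h1; simp [cfg] at h1
          · rw [h] at h1; simp [cfg] at h1
      subst hbt
      have h1 := hz.filter (Lt.isCopy b0)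
      rcases haA with rfl | ⟨b1, l1, rfl, hl1⟩
      · have := (hz.mem .s).2 (Or.inl (by simp))
        simp at this
      · by_cases hb : b1 = b0
        · subst hb
          rw [filter_cfg_same] at h1
          have e1 : ([Lt.t] : List (Lt S)).filter (Lt.isCopy b1) = [] := by simp [Lt.isCopy]
          have e2 : ([Lt.t, .hash b1, .c b1 κ] : List (Lt S)).filter (Lt.isCopy b1) =
              cfg b1 [κ] := by
            cases b1 <;> simp [Lt.isCopy, cfg]
          rw [e1, e2] at h1
          have := h1.of_nil_right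
          obtain ⟨-, rfl⟩ := cfg_inj this
          exact hl1 ReflTransGen.refl
        · have := (hz.mem (.hash b1)).2 (Or.inl (by simp [cfg]))
          simp [hb] at this
    · -- a step of the queue system
      have hs : Lt.s ∉ [Lt.hash b0, .hash (!b0), .c b0 x, .c b0 y] ++ pairs b0 l ++
          (Pr x y).map (Lt.c (!b0)) := by
        simp [pairs]
      have ht : Lt.t ∉ [Lt.hash b0, .hash (!b0), .c b0 x, .c b0 y] ++ pairs b0 l ++
          (Pr x y).map (Lt.c (!b0)) := by
        simp [pairs]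
      rcases haA with rfl | ⟨b1, l1, rfl, hl1⟩
      · exact hs ((hz.mem .s).2 (Or.inl (by simp)))
      rcases hbB with rfl | ⟨b2, l2, rfl, hl2⟩
      · exact ht ((hz.mem .t).2 (Or.inr (by simp)))
      -- the two copies
      have f1 : ([Lt.hash b0, .hash (!b0), .c b0 x, .c b0 y] ++ pairs b0 l ++
          (Pr x y).map (Lt.c (!b0))).filter (Lt.isCopy b0) = cfg b0 (x :: y :: l) := by
        rw [List.filter_append, List.filter_append, filter_pairs,
          filter_map_c_ne _ _ (by cases b0 <;> simp)]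
        cases b0 <;> simp [Lt.isCopy, cfg]
      have f2 : ([Lt.hash b0, .hash (!b0), .c b0 x, .c b0 y] ++ pairs b0 l ++
          (Pr x y).map (Lt.c (!b0))).filter (Lt.isCopy (!b0)) = cfg (!b0) (l ++ Pr x y) := by
        rw [List.filter_append, List.filter_append, filter_pairs, filter_map_c_same]
        cases b0 <;> simp [Lt.isCopy, cfg]
      have h1 := hz.filter (Lt.isCopy b0)
      have h2 := hz.filter (Lt.isCopy (!b0))
      rw [f1] at h1
      rw [f2] at h2
      have hne : b1 ≠ b2 := by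
        rintro rfl
        by_cases hb : b1 = b0
        · subst hb
          rw [filter_cfg_ne (!b1) b1 (by cases b1 <;> simp),
            filter_cfg_ne (!b1) b1 (by cases b1 <;> simp)] at h2
          have := h2.length
          simp [cfg] at this
        · rw [filter_cfg_ne b0 b1 hb, filter_cfg_ne b0 b1 hb] at h1
          have := h1.length
          simp [cfg] at this
      by_cases hb : b1 = b0
      · subst hb
        have hb2 : b2 = !b1 := bool_eq_not _ _ (Ne.symm hne)
        subst hb2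
        rw [filter_cfg_same, filter_cfg_ne _ _ (by cases b1 <;> simp)] at h1
        rw [filter_cfg_same, filter_cfg_ne _ _ (by cases b1 <;> simp)] at h2
        obtain ⟨-, e1⟩ := cfg_inj h1.of_nil_right
        obtain ⟨-, e2⟩ := cfg_inj h2.of_nil_left
        subst e1 e2
        exact hl1 (ReflTransGen.head (QStep.mk x y l) hl2)
      · have hb1 : b1 = !b0 := bool_eq_not _ _ hb
        have hb2 : b2 = b0 := bool_eq _ _ _ hne hb
        subst hb1 hb2
        rw [filter_cfg_same, filter_cfg_ne _ _ (by cases b2 <;> simp)] at h1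
        rw [filter_cfg_same, filter_cfg_ne _ _ (by cases b2 <;> simp)] at h2
        obtain ⟨-, e1⟩ := cfg_inj h1.of_nil_left
        obtain ⟨-, e2⟩ := cfg_inj h2.of_nil_right
        subst e1 e2
        exact hl1 (qreach_step_back (QStep.mk x y l) hl2)
    · -- `s` against the start configuration
      have hat : a = [.s] := by
        rcases haA with h | ⟨b1, l1, h, -⟩
        · exact h
        · exfalso
          have h1 : Lt.s ∈ a ∨ Lt.s ∈ b := (hz.mem .s).1 (by simp)
          rcases h1 with h1 | h1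
          · rw [h] at h1; simp [cfg] at h1
          · rcases hbB with h2 | ⟨b2, l2, h2, -⟩
            · rw [h2] at h1; simp at h1
            · rw [h2] at h1; simp [cfg] at h1
      subst hat
      rcases hbB with rfl | ⟨b1, l1, rfl, hl1⟩
      · have := (hz.mem .t).2 (Or.inr (by simp))
        simp [cfg] at this
      · have h1 := hz.filter (Lt.isCopy b1)
        by_cases hb : b1 = false
        · subst hb
          rw [filter_cfg_same] at h1
          have e1 : ([Lt.s] : List (Lt S)).filter (Lt.isCopy false) = [] := by simp [Lt.isCopy]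
          have e2 : ((Lt.s :: cfg false u : List (Lt S))).filter (Lt.isCopy false) =
              cfg false u := by
            rw [List.filter_cons_of_neg (by simp [Lt.isCopy]), filter_cfg_same]
          rw [e1, e2] at h1
          obtain ⟨-, e⟩ := cfg_inj h1.of_nil_left
          subst e
          exact h hl1
        · have := (hz.mem (.hash b1)).2 (Or.inr (by simp [cfg]))
          simp [cfg, hb] at this

/-- If the queue system reaches `[κ]`, then there is no decomposition. -/
theorem not_decomp_of_reach {Pr : S → S → List S} {κ : S} {u : List S}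
    (h : QReach Pr u [κ]) : ¬ Decomp (InR .mk .s .t (NN Pr κ u)) := by
  intro hd
  obtain ⟨A, B, hs, ht, hAB, hN⟩ := colouring_of_decomp (by simp) (by simp) ts_not_mem_NN hd
  have hcov : ∀ b l, cfg b l ∉ B → cfg b l ∈ A := by
    intro b l hl
    rcases hAB (cfg b l) (count_mk_cfg b l) (cfg_not_mem_NN b l) (by simp [cfg]) with h | h
    · exact h
    · exact absurd h hl
  have h0 : cfg false u ∈ A := by
    refine hcov _ _ (fun hB => hN _ hs _ hB _ (.left _ (Sh.nil_left _)) (Or.inr rfl))
  have hstep : ∀ b l l', QStep Pr l l' → cfg b l ∈ A → cfg (!b) l' ∈ A := by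
    rintro b _ _ ⟨x, y, l⟩ hA
    refine hcov _ _ (fun hB => hN _ hA _ hB _ (sh_step b x y l (Pr x y)) (Or.inl ⟨?_, ?_⟩))
    · rw [List.count_append, List.count_append]
      have e1 : (pairs b l).count .mk = 0 := countP_pairs _ _ _ (fun _ _ => rfl)
      have e2 : ((Pr x y).map (Lt.c (!b))).count .mk = 0 := countP_map_c _ _ _ (fun _ => rfl)
      rw [e1, e2]
      simp
    · exact Or.inr (Or.inr (Or.inr ⟨b, x, y, l, rfl⟩))
  have hall : ∀ l, QReach Pr u l → ∃ b, cfg b l ∈ A := by
    intro l hl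
    induction hl with
    | refl => exact ⟨_, h0⟩
    | tail _ hs ih =>
      obtain ⟨b, hb⟩ := ih
      exact ⟨_, hstep b _ _ hs hb⟩
  obtain ⟨b, hb⟩ := hall _ h
  refine hN _ hb _ ht [.t, .hash b, .c b κ] (.right _ (Sh.nil_right _)) (Or.inl ⟨by simp, ?_⟩)
  exact Or.inr (Or.inr (Or.inl ⟨b, rfl⟩))

theorem decomp_iff (Pr : S → S → List S) (κ : S) (u : List S) :
    Decomp (InR .mk .s .t (NN Pr κ u)) ↔ ¬ QReach Pr u [κ] :=
  ⟨fun h h' => not_decomp_of_reach h' h, decomp_of_not_reach⟩

end Pool.Agent.H623R2.Shuf
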