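import Mathlib
import Pool.Agent.H623R2.Shuf.Conc

/-!
The fixed part of the language is regular.
-/

set_option autoImplicit false

namespace Pool.Agent.H623R2.Shuf

variable {D : Type}

/-- Recognisable by a finite deterministic automaton. -/
def Reg (P : List D → Prop) : Prop :=
  ∃ (σ : Type) (_ : Finite σ) (st : σ) (δ : σ → D → σ) (F : σ → Prop),
    ∀ w, P w ↔ F (w.foldl δ st)

theorem reg_iff (P : List D → Prop) : Reg P ↔ Language.IsRegular ({w | P w} : Language D) := by
  constructor
  · rintro ⟨σ, hσ, st, δ, F, h⟩
    have := Fintype.ofFinite σ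
    refine ⟨σ, this, ⟨δ, st, {s | F s}⟩, ?_⟩
    ext w
    exact (h w).symm
  · rintro ⟨σ, hσ, M, hM⟩
    refine ⟨σ, inferInstance, M.start, M.step, fun s => s ∈ M.accept, fun w => ?_⟩
    have : P w ↔ w ∈ M.accepts := by rw [hM]; exact Iff.rfl
    exact this

namespace Reg

variable {P Q : List D → Prop}

theorem congr (h : Reg P) (hPQ : ∀ w, P w ↔ Q w) : Reg Q := by
  have : P = Q := funext fun w => propext (hPQ w)
  rwa [← this]

theorem not (h : Reg P) : Reg (fun w => ¬ P w) := by
  obtain ⟨σ, hσ, st, δ, F, h⟩ := h
  exact ⟨σ, hσ, st, δ, fun s => ¬ F s, fun w => not_congr (h w)⟩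

theorem exists_finite {ι : Type} [Finite ι] {P : ι → List D → Prop} (h : ∀ i, Reg (P i)) :
    Reg (fun w => ∃ i, P i w) := by
  choose σ hσ st δ F h using h
  refine ⟨∀ i, σ i, inferInstance, st, fun s a i => δ i (s i) a, fun s => ∃ i, F i (s i), ?_⟩
  intro w
  have key : ∀ (w : List D) (s : ∀ i, σ i) (i : ι),
      (w.foldl (fun (s : ∀ i, σ i) a i => δ i (s i) a) s) i = w.foldl (δ i) (s i) := by
    intro w
    induction w with
    | nil => intro s i; rfl
    | cons a w ih => intro s i; simp only [List.foldl_cons, ih]
  simp only [key, h]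

theorem or (h : Reg P) (h' : Reg Q) : Reg (fun w => P w ∨ Q w) := by
  have : Reg (fun w => ∃ b : Bool, (if b then P w else Q w)) :=
    exists_finite (fun b => by cases b <;> simpa)
  refine this.congr (fun w => ?_)
  simp [or_comm]

theorem and (h : Reg P) (h' : Reg Q) : Reg (fun w => P w ∧ Q w) := by
  refine (h.not.or h'.not).not.congr (fun w => ?_)
  tauto

theorem reverse (h : Reg P) : Reg (fun w => P w.reverse) := by
  rw [reg_iff] at h ⊢
  exact h.reverse

theorem cons [DecidableEq D] (h : Reg P) (a : D) : Reg (fun w => ∃ z, P z ∧ w = a :: z) := by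
  obtain ⟨σ, hσ, st, δ, F, h⟩ := h
  let δ' : Option (Option σ) → D → Option (Option σ) := fun s x => match s with
    | none => if x = a then some (some st) else some none
    | some none => some none
    | some (some q) => some (some (δ q x))
  have k1 : ∀ w : List D, w.foldl δ' (some none) = some none := by
    intro w
    induction w with
    | nil => rfl
    | cons x w ih => exact ih
  have k2 : ∀ (w : List D) (q : σ), w.foldl δ' (some (some q)) = some (some (w.foldl δ q)) := by
    intro w
    induction w with
    | nil => intro q; rfl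
    | cons x w ih => intro q; exact ih _
  refine ⟨Option (Option σ), inferInstance, none, δ', fun s => ∃ q, s = some (some q) ∧ F q, ?_⟩
  intro w
  rcases w with _ | ⟨x, w⟩
  · simp
  · by_cases hx : x = a
    · subst hx
      have : (x :: w).foldl δ' none = some (some (w.foldl δ st)) := by
        rw [List.foldl_cons, ← k2]
        simp [δ']
      rw [this]
      constructor
      · rintro ⟨z, hz, he⟩
        simp only [List.cons.injEq, true_and] at he
        subst he
        exact ⟨_, rfl, (h w).1 hz⟩
      · rintro ⟨q, hq, hF⟩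
        simp only [Option.some.injEq] at hq
        subst hq
        exact ⟨w, (h w).2 hF, rfl⟩
    · have : (x :: w).foldl δ' none = some none := by
        rw [List.foldl_cons, ← k1 w]
        simp [δ', hx]
      rw [this]
      simp [hx]

theorem pre [DecidableEq D] (h : Reg P) (v : List D) :
    Reg (fun w => ∃ z, P z ∧ w = v ++ z) := by
  induction v with
  | nil => exact h.congr (fun w => by simp)
  | cons a v ih =>
    refine (ih.cons a).congr (fun w => ?_)
    constructor
    · rintro ⟨z, ⟨z', hz', rfl⟩, rfl⟩
      exact ⟨z', hz', rfl⟩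
    · rintro ⟨z, hz, rfl⟩
      exact ⟨_, ⟨z, hz, rfl⟩, rfl⟩

theorem suf [DecidableEq D] (h : Reg P) (v : List D) :
    Reg (fun w => ∃ z, P z ∧ w = z ++ v) := by
  refine (h.reverse.pre v.reverse).reverse.congr (fun w => ?_)
  constructor
  · rintro ⟨z, hz, he⟩
    refine ⟨z.reverse, hz, ?_⟩
    have := congrArg List.reverse he
    simpa using this
  · rintro ⟨z, hz, rfl⟩
    exact ⟨z.reverse, by simpa using hz, by simp⟩

theorem countP (p : D → Bool) (k : ℕ) : Reg (fun w : List D => w.countP p = k) := by
  let δ : Fin (k + 2) → D → Fin (k + 2) := fun s a =>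
    if p a then ⟨min (s.val + 1) (k + 1), by omega⟩ else s
  refine ⟨Fin (k + 2), inferInstance, 0, δ, fun s => s.val = k, ?_⟩
  have key : ∀ (w : List D) (s : Fin (k + 2)),
      (w.foldl δ s).val = min (s.val + w.countP p) (k + 1) := by
    intro w
    induction w with
    | nil => intro s; simp; omega
    | cons a w ih =>
      intro s
      rw [List.foldl_cons, ih]
      by_cases ha : p a = true
      · rw [List.countP_cons_of_pos ha]
        simp only [δ, ha, if_true]
        omega
      · rw [List.countP_cons_of_neg ha]
        simp only [δ, ha]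
        simp
  intro w
  show w.countP p = k ↔ (w.foldl δ 0).val = k
  rw [key]
  simp only [Fin.val_zero]
  omega

theorem nil : Reg (fun w : List D => w = []) := by
  refine (countP (fun _ => true) 0).congr (fun w => ?_)
  simp

theorem eq [DecidableEq D] (v : List D) : Reg (fun w : List D => w = v) := by
  refine ((nil (D := D)).pre v).congr (fun w => ?_)
  simp

theorem all (p : D → Bool) : Reg (fun w : List D => ∀ a ∈ w, p a = true) := by
  refine (countP (fun a => !p a) 0).congr (fun w => ?_)
  rw [List.countP_eq_zero]
  simp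

end Reg

variable {S : Type} [Finite S] [DecidableEq S]

omit [Finite S] in
theorem reg_cfg (b : Bool) : Reg (fun w : List (Lt S) => ∃ l, w = cfg b l) := by
  let p : Lt S → Bool := fun x => match x with
    | .c b' _ => b' == b
    | _ => false
  refine ((Reg.all p).cons (.hash b)).congr (fun w => ?_)
  constructor
  · rintro ⟨z, hz, rfl⟩
    have : ∃ l : List S, z = l.map (Lt.c b) := by
      induction z with
      | nil => exact ⟨[], rfl⟩
      | cons x z ih =>
        obtain ⟨l, rfl⟩ := ih (fun a ha => hz a (List.mem_cons_of_mem _ ha))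
        have := hz x (by simp)
        rcases x with _ | _ | _ | b' | ⟨b', a⟩ <;> simp [p] at this
        subst this
        exact ⟨a :: l, rfl⟩
    obtain ⟨l, rfl⟩ := this
    exact ⟨l, rfl⟩
  · rintro ⟨l, rfl⟩
    refine ⟨_, ?_, rfl⟩
    intro a ha
    obtain ⟨x, -, rfl⟩ := List.mem_map.1 ha
    simp [p]

theorem reg_pairs (b : Bool) : Reg (fun w : List (Lt S) => ∃ l, w = pairs b l) := by
  let δ : Option (Option S) → Lt S → Option (Option S) := fun s x => match s, x with
    | some none, .c b' a => if b' = b then some (some a) else none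
    | some (some a), .c b' a' => if b' = (!b) ∧ a' = a then some none else none
    | _, _ => none
  have k0 : ∀ w : List (Lt S), w.foldl δ none = none := by
    intro w
    induction w with
    | nil => rfl
    | cons x w ih => exact ih
  refine ⟨Option (Option S), inferInstance, some none, δ, fun s => s = some none, ?_⟩
  intro w
  constructor
  · rintro ⟨l, rfl⟩
    induction l with
    | nil => rfl
    | cons a l ih =>
      have : pairs b (a :: l) = [.c b a, .c (!b) a] ++ pairs b l := rfl
      rw [this, List.foldl_append]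
      have : ([.c b a, .c (!b) a] : List (Lt S)).foldl δ (some none) = some none := by
        simp [δ]
      rw [this, ih]
  · intro h
    induction hn : w.length using Nat.strong_induction_on generalizing w with
    | _ n ih =>
      rcases w with _ | ⟨x, w⟩
      · exact ⟨[], rfl⟩
      · rw [List.foldl_cons] at h
        by_cases hx : ∃ a, x = .c b a
        · obtain ⟨a, rfl⟩ := hx
          have e : δ (some none) (.c b a) = some (some a) := by simp [δ]
          rw [e] at h
          rcases w with _ | ⟨y, w⟩
          · simp at h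
          · rw [List.foldl_cons] at h
            by_cases hy : y = .c (!b) a
            · subst hy
              have e : δ (some (some a)) (.c (!b) a) = some none := by simp [δ]
              rw [e] at h
              obtain ⟨l, rfl⟩ := ih w.length (by simp at hn; omega) w h rfl
              exact ⟨a :: l, rfl⟩
            · have e : δ (some (some a)) y = none := by
                rcases y with _ | _ | _ | b' | ⟨b', a'⟩ <;> simp only [δ]
                rw [if_neg]
                rintro ⟨rfl, rfl⟩
                exact hy rfl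
              rw [e, k0] at h
              simp at h
        · have e : δ (some none) x = none := by
            rcases x with _ | _ | _ | b' | ⟨b', a'⟩ <;> simp only [δ]
            rw [if_neg]
            rintro rfl
            exact hx ⟨_, rfl⟩
          rw [e, k0] at h
          simp at h

omit [Finite S] in
theorem reg_InC : Reg (fun w : List (Lt S) => InC w) := by
  refine ((Reg.eq _).or ((Reg.eq _).or (Reg.exists_finite reg_cfg)))

theorem reg_BadF (Pr : S → S → List S) (κ : S) : Reg (BadF Pr κ) := by
  refine (Reg.exists_finite (fun b => Reg.eq _)).or ?_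
  have h : Reg (fun w : List (Lt S) => ∃ i : Bool × S × S, ∃ z,
      (∃ z', (∃ l, z' = pairs i.1 l) ∧ z = [.hash i.1, .hash (!i.1), .c i.1 i.2.1, .c i.1 i.2.2] ++ z')
      ∧ w = z ++ (Pr i.2.1 i.2.2).map (.c (!i.1))) :=
    Reg.exists_finite (fun i => ((reg_pairs i.1).pre _).suf _)
  refine h.congr (fun w => ?_)
  constructor
  · rintro ⟨⟨b, x, y⟩, z, ⟨z', ⟨l, rfl⟩, rfl⟩, rfl⟩
    exact ⟨b, x, y, l, rfl⟩
  · rintro ⟨b, x, y, l, rfl⟩
    exact ⟨⟨b, x, y⟩, _, ⟨_, ⟨l, rfl⟩, rfl⟩, rfl⟩

theorem reg_NF (Pr : S → S → List S) (κ : S) : Reg (NF Pr κ) := by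
  refine (Reg.countP _ 0).and ((((Reg.nil).not.and (Reg.countP _ 0))).or
    (((Reg.countP _ 1).and reg_InC.not).or (reg_BadF Pr κ)))

theorem reg_InR (Pr : S → S → List S) (κ : S) :
    Reg (InR Lt.mk .s .t {w : List (Lt S) | NF Pr κ w}) := by
  refine Reg.nil.or (((Reg.countP _ 1).and ((Reg.eq _).not.and ?_)).or
    ((Reg.countP _ 2).and ?_))
  · refine ((reg_NF Pr κ).cons Lt.mk).not.congr (fun w => ?_)
    constructor
    · intro h z hz he
      exact h ⟨z, hz, he⟩
    · rintro h ⟨z, hz, he⟩
      exact h z hz he
  · refine (((reg_NF Pr κ).cons Lt.mk).cons Lt.mk).not.congr (fun w => ?_)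
    constructor
    · intro h z hz he
      exact h ⟨_, ⟨z, hz, rfl⟩, he⟩
    · rintro h ⟨_, ⟨z, hz, rfl⟩, he⟩
      exact h z hz he

omit [Finite S] in
/-- The variable part of the language. -/
theorem InR_NN_iff (Pr : S → S → List S) (κ : S) (u : List S) (w : List (Lt S)) :
    InR .mk .s .t (NN Pr κ u) w ↔ InR .mk .s .t {w | NF Pr κ w} w ∧
      ∀ j, w ≠ List.replicate j .mk ++ (.s :: cfg false u) := by
  have hc : (Lt.s :: cfg false u : List (Lt S)).count Lt.mk = 0 := by
    rw [List.count_cons_of_ne (by simp), count_mk_cfg]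
  constructor
  · intro h
    refine ⟨?_, ?_⟩
    · rcases h with h | ⟨h1, h2, h3⟩ | ⟨h1, h2⟩
      · exact Or.inl h
      · exact Or.inr (Or.inl ⟨h1, h2, fun z hz => h3 z (Or.inl hz)⟩)
      · exact Or.inr (Or.inr ⟨h1, fun z hz => h2 z (Or.inl hz)⟩)
    · rintro j rfl
      have hcj : (List.replicate j (Lt.mk : Lt S) ++ (Lt.s :: cfg false u)).count Lt.mk = j := by
        rw [List.count_append, hc, List.count_replicate_self]
        rfl
      rcases h with h | ⟨h1, h2, h3⟩ | ⟨h1, h2⟩
      · simp at h
      · rw [hcj] at h1
        subst h1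
        exact h3 _ (Or.inr rfl) rfl
      · rw [hcj] at h1
        subst h1
        exact h2 _ (Or.inr rfl) rfl
  · rintro ⟨h, h'⟩
    rcases h with h | ⟨h1, h2, h3⟩ | ⟨h1, h2⟩
    · exact Or.inl h
    · refine Or.inr (Or.inl ⟨h1, h2, ?_⟩)
      rintro z (hz | rfl)
      · exact h3 z hz
      · exact h' 1
    · refine Or.inr (Or.inr ⟨h1, ?_⟩)
      rintro z (hz | rfl)
      · exact h2 z hz
      · exact h' 2

end Pool.Agent.H623R2.Shuf
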