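import Mathlib
import Pool.Agent.H623R2.Shuf.Reg

/-!
Computable codes for automata: a fixed regular language minus the words `m ^ j ++ v n`.
-/

set_option autoImplicit false

namespace Pool.Agent.H623R2.Shuf

/-- The chain automaton for `mc ^ j ++ v`. -/
def chain (mc : ℕ) (v : List ℕ) (j a : ℕ) : ℕ :=
  if j = 0 ∧ a = mc then 0 else if v[j]? = some a then j + 1 else v.length + 1

theorem chain_le (mc : ℕ) (v : List ℕ) (j a : ℕ) : chain mc v j a ≤ v.length + 1 := by
  unfold chain
  split_ifs with h1 h2
  · omega
  · have := (List.getElem?_eq_some_iff.1 h2).1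
    omega
  · omega

theorem chain_dead (mc : ℕ) (v : List ℕ) (w : List ℕ) :
    w.foldl (chain mc v) (v.length + 1) = v.length + 1 := by
  induction w with
  | nil => rfl
  | cons a w ih =>
    have : chain mc v (v.length + 1) a = v.length + 1 := by
      unfold chain
      rw [if_neg (by omega), if_neg]
      simp
    rw [List.foldl_cons, this, ih]

theorem chain_pos (mc : ℕ) (v : List ℕ) : ∀ (w : List ℕ) (j : ℕ), 1 ≤ j → j ≤ v.length →
    (w.foldl (chain mc v) j = v.length ↔ w = v.drop j) := by
  intro w
  induction w with
  | nil =>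
    intro j h1 h2
    simp only [List.foldl_nil]
    constructor
    · rintro rfl
      simp
    · intro h
      have := congrArg List.length h
      simp at this
      omega
  | cons a w ih =>
    intro j h1 h2
    rw [List.foldl_cons]
    unfold chain
    rw [if_neg (by omega)]
    split_ifs with h
    · obtain ⟨hj, hja⟩ := List.getElem?_eq_some_iff.1 h
      have := ih (j + 1) (by omega) (by omega)
      change w.foldl (chain mc v) (j + 1) = v.length ↔ _
      rw [this, List.drop_eq_getElem_cons hj, hja]
      simp
    · have := chain_dead mc v w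
      change w.foldl (chain mc v) (v.length + 1) = v.length ↔ _
      rw [this]
      constructor
      · intro h; omega
      · intro he
        exfalso
        apply h
        have : (v.drop j)[0]? = some a := by rw [← he]; rfl
        simpa using this

theorem chain_zero (mc : ℕ) (v : List ℕ) (hv : ∃ b v', v = b :: v' ∧ b ≠ mc) (w : List ℕ) :
    w.foldl (chain mc v) 0 = v.length ↔ ∃ j, w = List.replicate j mc ++ v := by
  obtain ⟨b, v', hv', hb⟩ := hv
  induction w with
  | nil =>
    simp [hv']
  | cons a w ih =>
    rw [List.foldl_cons]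
    by_cases ha : a = mc
    · have : chain mc v 0 a = 0 := by simp [chain, ha]
      rw [this, ih]
      constructor
      · rintro ⟨j, rfl⟩
        exact ⟨j + 1, by simp [List.replicate_succ, ha]⟩
      · rintro ⟨j, hj⟩
        rcases j with _ | j
        · simp only [List.replicate_zero, List.nil_append, hv', List.cons.injEq] at hj
          exact absurd (hj.1.symm.trans ha) hb
        · refine ⟨j, ?_⟩
          simpa [List.replicate_succ, ha] using hj
    · by_cases hab : a = b
      · have h1 : chain mc v 0 a = 1 := by
          unfold chain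
          rw [if_neg (by simp [ha]), if_pos]
          simp [hv', hab]
        rw [h1, chain_pos mc v w 1 le_rfl (by simp [hv'])]
        constructor
        · intro hw
          refine ⟨0, ?_⟩
          rw [hw, hv', hab]
          simp
        · rintro ⟨j, hj⟩
          rcases j with _ | j
          · simp only [List.replicate_zero, List.nil_append] at hj
            rw [hv'] at hj ⊢
            simpa using (List.cons.inj hj).2
          · simp only [List.replicate_succ, List.cons_append, List.cons.injEq] at hj
            exact absurd hj.1 ha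
      · have h1 : chain mc v 0 a = v.length + 1 := by
          unfold chain
          rw [if_neg (by simp [ha]), if_neg]
          simp [hv', Ne.symm hab]
        rw [h1, chain_dead]
        constructor
        · intro h; omega
        · rintro ⟨j, hj⟩
          rcases j with _ | j
          · simp only [List.replicate_zero, List.nil_append, hv', List.cons.injEq] at hj
            exact absurd hj.1 hab
          · simp only [List.replicate_succ, List.cons_append, List.cons.injEq] at hj
            exact absurd hj.1 ha

/-- The transition table of the product automaton. -/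
def tbl (M k : ℕ) (tab : List ℕ) (mc : ℕ) (v : List ℕ) : List ℕ :=
  (List.range (M * (v.length + 2) * k)).map fun i =>
    tab.getD ((i / k) % M * k + i % k) 0 + M * chain mc v ((i / k) / M) (i % k)

/-- The accepting states of the product automaton. -/
def accs (M : ℕ) (acc : List ℕ) (v : List ℕ) : List ℕ :=
  (List.range (M * (v.length + 2))).flatMap fun st =>
    if acc.getD (st % M) 0 = 1 ∧ ¬ st / M = v.length then [st] else []

theorem primrec_chain (mc : ℕ) {α : Type} [Primcodable α] {v : α → List ℕ} {j a : α → ℕ}
    (hv : Primrec v) (hj : Primrec j) (ha : Primrec a) :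
    Primrec fun x => chain mc (v x) (j x) (a x) := by
  unfold chain
  refine Primrec.ite ((Primrec.eq.comp hj (Primrec.const 0)).and
    (Primrec.eq.comp ha (Primrec.const mc))) (Primrec.const 0) ?_
  refine Primrec.ite (Primrec.eq.comp (Primrec.list_getElem?.comp hv hj)
    (Primrec.option_some.comp ha)) (Primrec.succ.comp hj)
    (Primrec.succ.comp (Primrec.list_length.comp hv))

theorem primrec_tbl (M k : ℕ) (tab : List ℕ) (mc : ℕ) : Primrec (tbl M k tab mc) := by
  unfold tbl
  refine Primrec.list_map (Primrec.list_range.comp (Primrec.nat_mul.comp (Primrec.nat_mul.comp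
    (Primrec.const M) (Primrec.nat_add.comp Primrec.list_length (Primrec.const 2)))
    (Primrec.const k))) ?_
  have hi : Primrec fun x : List ℕ × ℕ => x.2 := Primrec.snd
  have hdiv : Primrec fun x : List ℕ × ℕ => x.2 / k :=
    Primrec.nat_div.comp hi (Primrec.const k)
  have hmod : Primrec fun x : List ℕ × ℕ => x.2 % k :=
    Primrec.nat_mod.comp hi (Primrec.const k)
  refine Primrec.nat_add.comp (Primrec.list_getD 0 |>.comp (Primrec.const tab)
    (Primrec.nat_add.comp (Primrec.nat_mul.comp (Primrec.nat_mod.comp hdiv (Primrec.const M))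
    (Primrec.const k)) hmod)) (Primrec.nat_mul.comp (Primrec.const M) ?_)
  exact primrec_chain mc Primrec.fst (Primrec.nat_div.comp hdiv (Primrec.const M)) hmod

theorem primrec_accs (M : ℕ) (acc : List ℕ) : Primrec (accs M acc) := by
  unfold accs
  refine Primrec.list_flatMap (Primrec.list_range.comp (Primrec.nat_mul.comp
    (Primrec.const M) (Primrec.nat_add.comp Primrec.list_length (Primrec.const 2)))) ?_
  have hi : Primrec fun x : List ℕ × ℕ => x.2 := Primrec.snd
  have h1 : PrimrecPred fun x : List ℕ × ℕ => acc.getD (x.2 % M) 0 = 1 :=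
    Primrec.eq.comp (Primrec.list_getD 0 |>.comp (Primrec.const acc)
      (Primrec.nat_mod.comp hi (Primrec.const M))) (Primrec.const 1)
  have h2 : PrimrecPred fun x : List ℕ × ℕ => x.2 / M = x.1.length :=
    Primrec.eq.comp (Primrec.nat_div.comp hi (Primrec.const M))
      (Primrec.list_length.comp Primrec.fst)
  exact Primrec.ite (h1.and h2.not) (Primrec.list_cons.comp hi (Primrec.const []))
    (Primrec.const [])

theorem tbl_getD (M k : ℕ) (tab : List ℕ) (mc : ℕ) (v : List ℕ) (q j a : ℕ) (hq : q < M)
    (hj : j ≤ v.length + 1) (ha : a < k) :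
    (tbl M k tab mc v).getD ((q + M * j) * k + a) 0 =
      tab.getD (q * k + a) 0 + M * chain mc v j a := by
  have hM : 0 < M := by omega
  have hk : 0 < k := by omega
  have h1 : q + M * j < M * (v.length + 2) := by
    have : M * (j + 1) ≤ M * (v.length + 2) := Nat.mul_le_mul_left _ (by omega)
    have : M * (j + 1) = M * j + M := by ring
    omega
  have h2 : (q + M * j) * k + a < M * (v.length + 2) * k := by
    have : (q + M * j + 1) * k ≤ M * (v.length + 2) * k := Nat.mul_le_mul_right _ (by omega)
    have : (q + M * j + 1) * k = (q + M * j) * k + k := by ring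
    omega
  unfold tbl
  rw [List.getD_eq_getElem?_getD, List.getElem?_map, List.getElem?_range h2]
  have e1 : ((q + M * j) * k + a) / k = q + M * j := by
    rw [mul_comm, Nat.mul_add_div hk, Nat.div_eq_of_lt ha, add_zero]
  have e2 : ((q + M * j) * k + a) % k = a := by
    rw [mul_comm, Nat.mul_add_mod, Nat.mod_eq_of_lt ha]
  have e3 : (q + M * j) / M = j := by
    rw [Nat.add_mul_div_left _ _ hM, Nat.div_eq_of_lt hq, zero_add]
  have e4 : (q + M * j) % M = q := by
    rw [Nat.add_mul_mod_self_left, Nat.mod_eq_of_lt hq]
  simp only [Option.map_some, Option.getD_some, e1, e2, e3, e4]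

theorem mem_accs (M : ℕ) (acc : List ℕ) (v : List ℕ) (q j : ℕ) (hq : q < M)
    (hj : j ≤ v.length + 1) :
    q + M * j ∈ accs M acc v ↔ acc.getD q 0 = 1 ∧ ¬ j = v.length := by
  have hM : 0 < M := by omega
  have h1 : q + M * j < M * (v.length + 2) := by
    have : M * (j + 1) ≤ M * (v.length + 2) := Nat.mul_le_mul_left _ (by omega)
    have : M * (j + 1) = M * j + M := by ring
    omega
  have e3 : (q + M * j) / M = j := by
    rw [Nat.add_mul_div_left _ _ hM, Nat.div_eq_of_lt hq, zero_add]
  have e4 : (q + M * j) % M = q := by
    rw [Nat.add_mul_mod_self_left, Nat.mod_eq_of_lt hq]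
  unfold accs
  rw [List.mem_flatMap]
  constructor
  · rintro ⟨st, -, hst⟩
    split_ifs at hst with h
    · simp only [List.mem_singleton] at hst
      subst hst
      rwa [e3, e4] at h
    · simp at hst
  · intro h
    refine ⟨q + M * j, List.mem_range.2 h1, ?_⟩
    rw [if_pos (by rwa [e3, e4])]
    simp

variable {D : Type} [Fintype D]

theorem exists_code {P : List D → Prop} (hP : Reg P) (m : D) (v : ℕ → List D)
    (hv : ∀ n, ∃ b v', v n = b :: v' ∧ b ≠ m)
    (hc : ∀ g : D → ℕ, Computable fun n => (v n).map g) :
    ∃ (k : ℕ) (e : D ≃ Fin k) (T F : ℕ → List ℕ), Computable T ∧ Computable F ∧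
      ∀ n (w : List (Fin k)), (w.foldl (fun q a => (T n).getD (q * k + a.val) 0) 0 ∈ F n) ↔
        (P (w.map e.symm) ∧ ∀ j, w.map e.symm ≠ List.replicate j m ++ v n) := by
  classical
  obtain ⟨σ, hσ, st, δ, Fi, h⟩ := hP
  let _ : Fintype σ := Fintype.ofFinite σ
  let k := Fintype.card D
  let e : D ≃ Fin k := Fintype.equivFin D
  let M := Fintype.card σ
  have hM : 0 < M := Fintype.card_pos_iff.2 ⟨st⟩
  let g0 : σ ≃ Fin M := Fintype.equivFin σ
  let g : σ ≃ Fin M := g0.trans (Equiv.swap (g0 st) ⟨0, hM⟩)
  have hg : (g st).val = 0 := by simp [g]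
  let tab : List ℕ := (List.range (M * k)).map fun i =>
    if h : i / k < M ∧ i % k < k then
      (g (δ (g.symm ⟨i / k, h.1⟩) (e.symm ⟨i % k, h.2⟩))).val else 0
  let acc : List ℕ := (List.range M).map fun i =>
    if h : i < M then (if Fi (g.symm ⟨i, h⟩) then 1 else 0) else 0
  have htab : ∀ (q : σ) (a : Fin k), tab.getD ((g q).val * k + a.val) 0 =
      (g (δ q (e.symm a))).val := by
    intro q a
    have ha := a.2
    have hq := (g q).2
    have h2 : (g q).val * k + a.val < M * k := by
      have : ((g q).val + 1) * k ≤ M * k := Nat.mul_le_mul_right _ (by omega)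
      have : ((g q).val + 1) * k = (g q).val * k + k := by ring
      omega
    have hk : 0 < k := by omega
    have e1 : ((g q).val * k + a.val) / k = (g q).val := by
      rw [mul_comm, Nat.mul_add_div hk, Nat.div_eq_of_lt ha, add_zero]
    have e2 : ((g q).val * k + a.val) % k = a.val := by
      rw [mul_comm, Nat.mul_add_mod, Nat.mod_eq_of_lt ha]
    simp only [tab]
    rw [List.getD_eq_getElem?_getD, List.getElem?_map, List.getElem?_range h2]
    simp only [Option.map_some, Option.getD_some]
    rw [dif_pos ⟨by rw [e1]; exact hq, by rw [e2]; exact ha⟩]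
    simp only [e1, e2, Fin.eta, Equiv.symm_apply_apply]
  have hacc : ∀ q : σ, acc.getD (g q).val 0 = 1 ↔ Fi q := by
    intro q
    simp only [acc]
    rw [List.getD_eq_getElem?_getD, List.getElem?_map, List.getElem?_range (g q).2]
    simp only [Option.map_some, Option.getD_some, (g q).2, dite_true, Fin.eta,
      Equiv.symm_apply_apply]
    by_cases hF : Fi q <;> simp [hF]
  let cv : ℕ → List ℕ := fun n => (v n).map fun d => (e d).val
  have hcv : Computable cv := hc _
  have hcv' : ∀ n, ∃ b v', cv n = b :: v' ∧ b ≠ (e m).val := by
    intro n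
    obtain ⟨b, v', h1, h2⟩ := hv n
    refine ⟨(e b).val, v'.map fun d => (e d).val, by simp [cv, h1], ?_⟩
    intro h
    exact h2 (e.injective (Fin.ext h))
  refine ⟨k, e, fun n => tbl M k tab (e m).val (cv n), fun n => accs M acc (cv n),
    (primrec_tbl M k tab _).to_comp.comp hcv, (primrec_accs M acc).to_comp.comp hcv, ?_⟩
  intro n w
  have key : ∀ (w : List (Fin k)) (q : σ) (j : ℕ), j ≤ (cv n).length + 1 →
      w.foldl (fun q a => (tbl M k tab (e m).val (cv n)).getD (q * k + a.val) 0)
        ((g q).val + M * j) =
      (g ((w.map e.symm).foldl δ q)).val +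
        M * (w.map Fin.val).foldl (chain (e m).val (cv n)) j ∧
      (w.map Fin.val).foldl (chain (e m).val (cv n)) j ≤ (cv n).length + 1 := by
    intro w
    induction w with
    | nil => intro q j hj; exact ⟨rfl, hj⟩
    | cons a w ih =>
      intro q j hj
      simp only [List.foldl_cons, List.map_cons]
      rw [tbl_getD M k tab _ _ _ _ _ (g q).2 hj a.2, htab]
      exact ih _ _ (chain_le _ _ _ _)
  obtain ⟨k1, k2⟩ := key w st 0 (by omega)
  rw [hg, Nat.mul_zero, Nat.add_zero] at k1
  show w.foldl (fun q a => (tbl M k tab (e m).val (cv n)).getD (q * k + a.val) 0) 0 ∈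
    accs M acc (cv n) ↔ _
  rw [k1, mem_accs _ _ _ _ _ (g _).2 k2, hacc, ← h, chain_zero _ _ (hcv' n)]
  refine and_congr_right fun _ => ?_
  rw [not_exists]
  refine forall_congr' fun j => not_congr ?_
  have hw : w.map Fin.val = (w.map e.symm).map fun d => (e d).val := by
    simp [Function.comp_def]
  have hr : List.replicate j (e m).val ++ cv n =
      (List.replicate j m ++ v n).map fun d => (e d).val := by
    simp [cv]
  rw [hw, hr]
  constructor
  · intro h
    refine List.map_injective_iff.2 ?_ h
    intro x y hxy
    exact e.injective (Fin.ext hxy)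
  · intro h
    rw [h]

/-- Decompositions are transported by bijections of the letters. -/
theorem decomp_congr {D E : Type} (e : E ≃ D) (P : List D → Prop) :
    Decomp (fun w : List E => P (w.map e)) ↔ Decomp P := by
  have hsh : ∀ {D E : Type} (f : D → E) {u v w : List D}, Sh u v w →
      Sh (u.map f) (v.map f) (w.map f) := by
    intro D E f u v w h
    induction h with
    | nil => exact .nil
    | left a _ ih => exact .left _ ih
    | right a _ ih => exact .right _ ih
  have key : ∀ {D E : Type} (e : E ≃ D) (P : List D → Prop), Decomp P →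
      Decomp (fun w : List E => P (w.map e)) := by
    rintro D E e P ⟨L1, L2, h1, h2, h⟩
    have hne : ∀ L : Set (List D), L ≠ {[]} → {w : List E | w.map e ∈ L} ≠ {[]} := by
      intro L hL he
      apply hL
      ext x
      have : x.map e.symm ∈ {w : List E | w.map e ∈ L} ↔ x.map e.symm ∈ ({[]} : Set (List E)) := by
        rw [he]
      simpa [Function.comp_def] using this
    refine ⟨{w | w.map e ∈ L1}, {w | w.map e ∈ L2}, hne _ h1, hne _ h2, ?_⟩
    intro w
    show P (w.map e) ↔ _
    rw [h]
    constructor
    · rintro ⟨u, hu, v, hv, huv⟩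
      refine ⟨u.map e.symm, by simpa [Function.comp_def] using hu, v.map e.symm,
        by simpa [Function.comp_def] using hv, ?_⟩
      have := hsh e.symm huv
      simpa [Function.comp_def] using this
    · rintro ⟨u, hu, v, hv, huv⟩
      exact ⟨_, hu, _, hv, hsh e huv⟩
  constructor
  · intro h
    have := key e.symm _ h
    have he : (fun w : List D => P ((w.map e.symm).map e)) = P := by
      funext w
      simp [Function.comp_def]
    rwa [he] at this
  · exact key e P

end Pool.Agent.H623R2.Shuf
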