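import Mathlib
import Pool.Agent.Helper522.Kos.Univ

/-!
A queue system whose halting problem is undecidable.
-/

set_option autoImplicit false

namespace Pool.Agent.H623R2.Shuf

open Turing Relation Pool.Agent.Helper522.Kos.Queue Pool.Agent.Helper522.Kos.Univ
open Turing.PartrecToTM2 (trNat)

theorem exists_queue : ∃ (S : Type) (_ : Fintype S) (_ : DecidableEq S)
    (Pr : S → S → List S) (κ : S) (u : ℕ → List S),
    (∀ g : S → ℕ, Computable fun n => (u n).map g) ∧
    ¬ ComputablePred fun n => QReach Pr (u n) [κ] := by
  classical
  obtain ⟨Λ, i1, i2, M, hM⟩ := exists_machine
  let S := Helper522.Kos.Queue.Sym (TM2to1.Γ' PartrecToTM2.K' (fun _ => PartrecToTM2.Γ')) Λ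
  have fK : Finite PartrecToTM2.K' := by
    refine Finite.of_injective (fun k : PartrecToTM2.K' => match k with
      | .main => (0 : Fin 4)
      | .rev => 1
      | .aux => 2
      | .stack => 3) ?_
    intro a b h
    cases a <;> cases b <;> simp_all
  have fG : Finite (TM2to1.Γ' PartrecToTM2.K' (fun _ => PartrecToTM2.Γ')) :=
    inferInstanceAs (Finite (Bool × (PartrecToTM2.K' → Option PartrecToTM2.Γ')))
  have fS : Finite S := inferInstanceAs (Finite (Helper522.Kos.Queue.Sym _ _))
  let iF : Fintype S := Fintype.ofFinite S
  let u : ℕ → List S := fun n => initWord (sym true .cons :: (trNat n).reverse.map (sym false))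
  refine ⟨S, iF, inferInstance, prod M, .kill, u, ?_, ?_⟩
  · intro g
    have e : ∀ n, (u n).map g = if ((trNat n).map fun a => g (.cell (sym false a))).length % 2 = 1
        then g .mark :: g (.head default (sym true .cons)) ::
          ((trNat n).map fun a => g (.cell (sym false a))).reverse
        else g .mark :: g (.cell default) :: g (.head default (sym true .cons)) ::
          ((trNat n).map fun a => g (.cell (sym false a))).reverse := by
      intro n
      simp only [u, initWord, List.length_cons, List.length_map, List.length_reverse,
        List.headI, List.tail_cons]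
      by_cases h : (trNat n).length % 2 = 1
      · rw [if_pos h, if_pos (by omega)]
        simp [Function.comp_def]
      · rw [if_neg h, if_neg (by omega)]
        simp [Function.comp_def]
    simp only [e]
    have hd := digits_computable fun a => g (.cell (sym false a))
    have hp : Primrec fun l : List ℕ => if l.length % 2 = 1
        then g .mark :: g (.head default (sym true .cons)) :: l.reverse
        else g .mark :: g (.cell default) :: g (.head default (sym true .cons)) ::
          l.reverse := by
      refine Primrec.ite (PrimrecRel.comp Primrec.eq (Primrec.nat_mod.comp Primrec.list_length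
        (Primrec.const 2)) (Primrec.const 1)) ?_ ?_
      · exact Primrec.list_cons.comp (Primrec.const _) (Primrec.list_cons.comp (Primrec.const _)
          Primrec.list_reverse)
      · exact Primrec.list_cons.comp (Primrec.const _) (Primrec.list_cons.comp (Primrec.const _)
          (Primrec.list_cons.comp (Primrec.const _) Primrec.list_reverse))
    exact hp.to_comp.comp hd
  · intro h
    apply u_not_computable
    have key : ∀ n, QReach (prod M) (u n) [.kill] ↔ (Helper522.Kos.Univ.u n).Dom := by
      intro n
      rw [← hM n, ← rep_halts M (rep_init _ (by simp))]
    have : (fun n => QReach (prod M) (u n) [.kill]) = fun n => (Helper522.Kos.Univ.u n).Dom := by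
      funext n; exact propext (key n)
    rwa [this] at h

end Pool.Agent.H623R2.Shuf
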